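import Mathlib
import Pool.Agent.P.MP_ca7dc8_pr.Count
import Pool.Agent.P.MP_ca7dc8_pr.Dim

set_option autoImplicit false

open Finset

namespace Pool.Agent.Results.MP_ca7dc8_pr.EveryDimension

open Pool.Agent.P.MP_ca7dc8_pr.Dim

/-- The 2d nearest-neighbour steps in the lattice: plus or minus a unit coordinate vector. -/
def step {d : ℕ} (s : Fin d × Bool) : Fin d → ℤ := Pi.single s.1 (if s.2 then 1 else -1)

/-- The position after t steps of a walk started at the origin. -/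
def pos {d t : ℕ} (ω : Fin t → Fin d × Bool) : Fin d → ℤ := ∑ k, step (ω k)

/-- The probability that at least one of n independent simple random walks on the d-dimensional
lattice, all started at the origin, is alone at its site at time t: all arrays of steps
are equally likely. -/
def p (n d t : ℕ) : ℚ :=
  (#{ω : Fin n → Fin t → Fin d × Bool | ∃ i, ∀ j, j ≠ i → pos (ω j) ≠ pos (ω i)} : ℚ) /
    (Fintype.card (Fin n → Fin t → Fin d × Bool) : ℚ)

theorem card_eq (n t : ℕ) (s : Finset ℤ) (hs : ∀ x : Fin t → Fin 1 × Bool, pos x 0 ∈ s)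
    (c : ℤ → ℕ) (hc : ∀ a ∈ s, #{x : Fin t → Fin 1 × Bool | pos x 0 = a} = c a) :
    (#{ω : Fin n → Fin t → Fin 1 × Bool | ∃ i, ∀ j, j ≠ i → pos (ω j) ≠ pos (ω i)} : ℤ) =
      (2 ^ t) ^ n - ∑ T ∈ s.powerset, (-1 : ℤ) ^ #T *
        ((n.descFactorial #T * (∏ a ∈ T, c a) * (∑ a ∈ s \ T, c a) ^ (n - #T) : ℕ) : ℤ) := by
  have h := Pool.Agent.P.MP_ca7dc8_pr.card_lonely
    (fun x : Fin t → Fin 1 × Bool => pos x 0) n s hs c hc
  have e : ∀ x y : Fin t → Fin 1 × Bool, pos x = pos y ↔ pos x 0 = pos y 0 := fun x y =>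
    ⟨fun h => congrFun h 0, fun h => funext fun i => by rw [Subsingleton.elim i 0]; exact h⟩
  simp only [ne_eq, e]
  rw [h]
  simp

/-- For 57 walkers on the integers the probability drops from time 6 to time 7. -/
theorem small : p 57 1 7 < p 57 1 6 := by
  have h6 := card_eq 57 6 {-6, -4, -2, 0, 2, 4, 6} (by decide +kernel)
    (fun a => Nat.choose 6 ((a + 6) / 2).toNat) (by decide +kernel)
  have h7 := card_eq 57 7 {-7, -5, -3, -1, 1, 3, 5, 7} (by decide +kernel)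
    (fun a => Nat.choose 7 ((a + 7) / 2).toNat) (by decide +kernel)
  have hc : ∀ n t : ℕ, (Fintype.card (Fin n → Fin t → Fin 1 × Bool) : ℚ) = (2 ^ t) ^ n := by
    intro n t
    simp
  unfold p
  rw [hc, hc, div_lt_div_iff₀ (by positivity) (by positivity)]
  have key : (#{ω : Fin 57 → Fin 7 → Fin 1 × Bool | ∃ i, ∀ j, j ≠ i → pos (ω j) ≠ pos (ω i)} : ℤ) *
      (2 ^ 6) ^ 57 <
      (#{ω : Fin 57 → Fin 6 → Fin 1 × Bool | ∃ i, ∀ j, j ≠ i → pos (ω j) ≠ pos (ω i)} : ℤ) *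
      (2 ^ 7) ^ 57 := by
    rw [h6, h7]
    decide +kernel
  exact_mod_cast key

variable {d t n : ℕ}

theorem pos_perm (w : Fin t → Fin d × Bool) (σ : Equiv.Perm (Fin t)) : pos (w ∘ σ) = pos w :=
  Equiv.sum_comp σ fun k => step (w k)

theorem abs_step (s : Fin d × Bool) (j : Fin d) : |step s j| ≤ 1 := by
  rw [step, Pi.single_apply]
  split_ifs <;> simp

theorem abs_pos' (w : Fin t → Fin d × Bool) (j : Fin d) : |pos w j| ≤ t := by
  rw [pos, Finset.sum_apply]
  refine (abs_sum_le_sum_abs _ _).trans ((sum_le_sum fun k _ => abs_step (w k) j).trans ?_)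
  simp

theorem step_mul (s u : Fin d × Bool) :
    step u s.1 * step s s.1 ≤ 1 ∧ (step u s.1 * step s s.1 = 1 → u = s) := by
  obtain ⟨j, b⟩ := s
  obtain ⟨i, c⟩ := u
  by_cases h : j = i
  · subst h
    cases b <;> cases c <;> simp [step]
  · simp [step, h]

theorem corner (s : Fin d × Bool) (w : Fin t → Fin d × Bool)
    (h : pos w = pos fun _ : Fin t => s) : w = fun _ => s := by
  have h1 : ∑ k, step (w k) s.1 * step s s.1 = ∑ _k : Fin t, (1 : ℤ) := by
    have h2 : step s s.1 * step s s.1 = 1 := by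
      obtain ⟨j, b⟩ := s
      cases b <;> simp [step]
    rw [← sum_mul, ← Finset.sum_apply, ← pos, h, pos, Finset.sum_apply, sum_mul]
    simp only [h2]
  have h3 := (sum_eq_sum_iff_of_le fun k _ => (step_mul s (w k)).1).1 h1
  exact funext fun k => (step_mul s (w k)).2 (h3 k (mem_univ _))

theorem card_words (d t : ℕ) : Fintype.card (Fin t → Fin d × Bool) = (2 * d) ^ t := by
  simp [mul_comm]

theorem p_eq (n d t : ℕ) : (p n d t : ℝ) =
    (#{ω : Fin n → Fin t → Fin d × Bool | ∃ i, ∀ j, j ≠ i → pos (ω j) ≠ pos (ω i)} : ℝ) /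
      (((2 * d) ^ t : ℕ) : ℝ) ^ n := by
  rw [p, Fintype.card_fun, card_words, Fintype.card_fin]
  push_cast
  rfl

theorem p_lower (hd : 1 ≤ d) (ht : 1 ≤ t) (hn : 1 ≤ n) (h : 8 * n ≤ (2 * d) ^ t) :
    3 / 2 * ((n : ℝ) / ((2 * d) ^ t : ℕ)) ≤ p n d t := by
  set j : Fin d := ⟨0, hd⟩
  set C : Finset (Fin t → Fin d × Bool) := {fun _ => (j, true), fun _ => (j, false)} with hC
  have h2 : #C = 2 := card_pair fun e => by simpa using congrFun e ⟨0, ht⟩
  have h3 := lower (n := n) pos C fun u hu w hw => by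
    rcases mem_insert.1 hu with rfl | hu
    · exact corner _ w hw
    · rw [mem_singleton.1 hu] at hw ⊢
      exact corner _ w hw
  rw [h2, card_words] at h3
  have hm : 0 < (2 * d) ^ t := by positivity
  have hm' : (0 : ℝ) < ((2 * d) ^ t : ℕ) := by exact_mod_cast hm
  have h8 : (8 : ℝ) * n ≤ ((2 * d) ^ t : ℕ) := by exact_mod_cast h
  have h4 := term_ge (n := n) (r := ((2 : ℕ) : ℝ) / ((2 * d) ^ t : ℕ)) hn (by positivity) (by
    rw [← mul_div_assoc, div_le_iff₀ hm']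
    push_cast at h8 ⊢
    linarith)
  rw [← term_eq hn hm (by omega)] at h4
  rw [p_eq]
  refine le_trans (le_of_eq ?_) (h4.trans ?_)
  · push_cast
    ring
  · gcongr

theorem p_upper (hd : 1 ≤ d) (hn : 2 ≤ n) (h : (2 * d) ^ t ≤ n * (2 * d) ^ 4) :
    (p n d (t + 1) : ℝ) ≤ (n : ℝ) / ((2 * d) ^ t : ℕ) +
      3 ^ d * ((d + 2).factorial * 2 ^ (d + 2)) * (2 * (2 * d) ^ 5) ^ (d + 1) / (t + 1) := by
  have hm : 0 < (2 * d) ^ (t + 1) := by positivity
  have hm' : (0 : ℝ) < ((2 * d) ^ (t + 1) : ℕ) := by exact_mod_cast hm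
  have hd' : (1 : ℝ) ≤ d := by exact_mod_cast hd
  set c : (Fin d → ℤ) → ℕ := fun x => #{w : Fin (t + 1) → Fin d × Bool | pos w = x} with hc
  have hcm : ∀ x, c x ≤ (2 * d) ^ (t + 1) := fun x => (card_le_univ _).trans_eq (card_words _ _)
  have hr : ∀ x, (c x : ℝ) / ((2 * d) ^ (t + 1) : ℕ) ≤ 1 := fun x =>
    (div_le_one hm').2 (by exact_mod_cast hcm x)
  set S := (univ : Finset (Fin (t + 1) → Fin d × Bool)).image pos with hS
  set S1 := (univ : Finset (Fin d × Bool)).image fun s => pos fun _ : Fin (t + 1) => s with hS1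
  set F : (Fin d → ℤ) → ℝ := fun x => n * ((c x : ℝ) / ((2 * d) ^ (t + 1) : ℕ)) *
    (1 - (c x : ℝ) / ((2 * d) ^ (t + 1) : ℕ)) ^ (n - 1) with hF
  have h1 : (p n d (t + 1) : ℝ) ≤ ∑ x ∈ S, F x := by
    have h2 := upper (n := n) (pos (d := d) (t := t + 1))
    rw [card_words] at h2
    rw [p_eq]
    refine (div_le_div_of_nonneg_right (Nat.cast_le.2 h2) (by positivity)).trans (le_of_eq ?_)
    rw [Nat.cast_sum, sum_div]
    exact sum_congr rfl fun x _ => term_eq (by omega) hm (hcm x)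
  have hsub : S1 ⊆ S := fun x hx => by
    obtain ⟨s, -, rfl⟩ := mem_image.1 hx
    exact mem_image_of_mem _ (mem_univ _)
  have h2 : ∑ x ∈ S1, F x ≤ (n : ℝ) / ((2 * d) ^ t : ℕ) := by
    have h3 : ∀ x ∈ S1, F x ≤ n * (1 / ((2 * d) ^ (t + 1) : ℕ)) := fun x hx => by
      obtain ⟨s, -, rfl⟩ := mem_image.1 hx
      refine (term_le_self (by positivity) (hr _)).trans ?_
      have h4 : c (pos fun _ : Fin (t + 1) => s) ≤ 1 :=
        card_le_one.2 fun u hu v hv =>
          (corner s u (mem_filter.1 hu).2).trans (corner s v (mem_filter.1 hv).2).symm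
      gcongr
      exact_mod_cast h4
    refine (sum_le_card_nsmul _ _ _ h3).trans ?_
    have h4 : (#S1 : ℝ) ≤ 2 * d := by
      have h5 : #S1 ≤ 2 * d := card_image_le.trans (by simp [mul_comm])
      exact_mod_cast h5
    rw [nsmul_eq_mul]
    refine (mul_le_mul_of_nonneg_right h4 (by positivity)).trans (le_of_eq ?_)
    push_cast
    field_simp
    ring
  have h3 : ∑ x ∈ S \ S1, F x ≤
      3 ^ d * ((d + 2).factorial * 2 ^ (d + 2)) * (2 * (2 * d) ^ 5) ^ (d + 1) / (t + 1) := by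
    have h4 : ∀ x ∈ S \ S1, F x ≤ (d + 2).factorial * 2 ^ (d + 2) /
        (((t : ℝ) + 1) / (2 * (2 * d) ^ 5)) ^ (d + 1) := fun x hx => by
      obtain ⟨hx, hx1⟩ := mem_sdiff.1 hx
      obtain ⟨w, -, rfl⟩ := mem_image.1 hx
      obtain ⟨k, hk⟩ : ∃ k, w k ≠ w 0 := by
        by_contra hw
        refine hx1 (mem_image.2 ⟨w 0, mem_univ _, congrArg pos (funext fun k => ?_)⟩)
        by_contra e
        exact hw ⟨k, fun e' => e e'.symm⟩
      have h5 : (t : ℝ) + 1 ≤ 2 * c (pos w) := by exact_mod_cast two_card pos pos_perm w hk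
      have h6 : ((2 : ℝ) * d) ^ t ≤ n * (2 * d) ^ 4 := by exact_mod_cast h
      refine term_le_tail hn (hr _) (by positivity) ?_ (d + 1)
      rw [← mul_div_assoc, div_le_div_iff₀ (by positivity) hm']
      push_cast
      calc ((t : ℝ) + 1) * (2 * d) ^ (t + 1) = (t + 1) * (2 * d) ^ t * (2 * d) := by ring
        _ ≤ 2 * c (pos w) * (n * (2 * d) ^ 4) * (2 * d) := by gcongr
        _ = _ := by ring
    refine (sum_le_card_nsmul _ _ _ h4).trans ?_
    have h5 : (#(S \ S1) : ℝ) ≤ (3 * (t + 1)) ^ d := by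
      have h6 : S \ S1 ⊆ Fintype.piFinset fun _ : Fin d => Icc (-((t + 1 : ℕ) : ℤ)) (t + 1 : ℕ) :=
        fun x hx => by
          obtain ⟨w, -, rfl⟩ := mem_image.1 (mem_sdiff.1 hx).1
          exact Fintype.mem_piFinset.2 fun j => mem_Icc.2 (abs_le.1 (abs_pos' w j))
      have h7 := card_le_card h6
      rw [Fintype.card_piFinset, prod_const, card_univ, Fintype.card_fin, Int.card_Icc] at h7
      have h8 : #(S \ S1) ≤ (3 * (t + 1)) ^ d := h7.trans (Nat.pow_le_pow_left (by omega) _)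
      exact_mod_cast h8
    rw [nsmul_eq_mul]
    refine (mul_le_mul_of_nonneg_right h5 (by positivity)).trans (le_of_eq ?_)
    rw [div_pow, mul_pow]
    field_simp
    ring
  rw [← sum_sdiff hsub] at h1
  linarith

/-- In every dimension the probability fails to be monotone in time for every large number of
walkers. -/
theorem result :
    ∀ d : ℕ, 1 ≤ d → ∃ n₀ : ℕ, ∀ n : ℕ, n₀ ≤ n → ∃ t : ℕ, p n d (t + 1) < p n d t := by
  intro d hd
  obtain ⟨K, hK⟩ : ∃ K : ℝ,
    K = 3 ^ d * ((d + 2).factorial * 2 ^ (d + 2)) * (2 * (2 * d) ^ 5) ^ (d + 1) := ⟨_, rfl⟩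
  obtain ⟨T, hT⟩ := exists_nat_gt (2 * K * (2 * d) ^ 4)
  have hq : 1 < 2 * d := by omega
  refine ⟨(2 * d) ^ (T + 1), fun n hn => ⟨Nat.log (2 * d) n + 4, ?_⟩⟩
  have hn2 : 2 ≤ n := le_trans (by
    calc 2 ≤ 2 * d := by omega
      _ ≤ (2 * d) ^ (T + 1) := Nat.le_self_pow (by omega) _) hn
  have h1 : (2 * d) ^ Nat.log (2 * d) n ≤ n := Nat.pow_log_le_self _ (by omega)
  have h2 : n < (2 * d) ^ (Nat.log (2 * d) n + 1) := Nat.lt_pow_succ_log_self hq n
  have h3 : T + 1 ≤ Nat.log (2 * d) n := (Nat.le_log_iff_pow_le hq (by omega)).2 hn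
  generalize Nat.log (2 * d) n = k at h1 h2 h3
  have h4 : (2 * d) ^ (k + 4) ≤ n * (2 * d) ^ 4 := by
    rw [pow_add]
    exact Nat.mul_le_mul_right _ h1
  have h5 : 8 * n ≤ (2 * d) ^ (k + 4) := by
    calc 8 * n ≤ (2 * d) ^ 3 * (2 * d) ^ (k + 1) :=
          Nat.mul_le_mul (Nat.pow_le_pow_left hq 3) h2.le
      _ = _ := by ring
  have h6 := p_lower (t := k + 4) hd (by omega) (by omega) h5
  have h7 := p_upper hd hn2 h4
  rw [← hK] at h7
  have hd' : (0 : ℝ) < d := by exact_mod_cast hd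
  have hm : (0 : ℝ) < ((2 * d) ^ (k + 4) : ℕ) := by positivity
  have h8 : 1 / ((2 : ℝ) * d) ^ 4 ≤ (n : ℝ) / ((2 * d) ^ (k + 4) : ℕ) := by
    rw [div_le_div_iff₀ (by positivity) hm, one_mul]
    exact_mod_cast h4
  have h9 : K / (((k + 4 : ℕ) : ℝ) + 1) < 1 / 2 * (1 / ((2 : ℝ) * d) ^ 4) := by
    have h10 : (T : ℝ) + 1 ≤ k := by exact_mod_cast h3
    rw [one_div_mul_one_div, div_lt_div_iff₀ (by positivity) (by positivity)]
    push_cast
    linarith
  have h10 : (p n d (k + 4 + 1) : ℝ) < p n d (k + 4) := by linarith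
  exact_mod_cast h10

end Pool.Agent.Results.MP_ca7dc8_pr.EveryDimension
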